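import Pool.Agent.TH685.TI.FSmall
import Pool.Agent.TH685.TI.BtU

set_option autoImplicit false
set_option maxHeartbeats 1000000

/-! # The typical size of the least prime `p` in `m = 2 k p + q` (`k = 1`: Lemoine's problem) -/

namespace Pool.Agent.Results.MP_5be99d_nt.TypicalLeastPrime

open Finset Filter Pool.Agent.H197R2.PG
open Pool.Agent.TH685.FAvg (ev_L ev_x avg_diff)
open Pool.Agent.TH685.Sq (gg_mul_le)

/-- the value `2 k p` plus one -/
def v (k p : ℕ) : ℕ := 2 * k * p + 1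

lemma v_inj {k p q : ℕ} (hk : 1 ≤ k) (h : v k p = v k q) : p = q := by
  unfold v at h
  have h1 : 2 * k * p = 2 * k * q := by omega
  exact Nat.eq_of_mul_eq_mul_left (by omega) h1

lemma v_dist (k p q : ℕ) : Nat.dist (v k p) (v k q) = 2 * k * Nat.dist p q := by
  unfold v
  rw [Nat.dist_add_add_right, Nat.dist_mul_left]

theorem avg_l (k : ℕ) (hk : 1 ≤ k) : ∃ C : ℝ, 1 ≤ C ∧ ∀ (M : ℕ) (S : Finset ℕ), 2 ≤ M →
    (∀ p ∈ S, p.Prime ∧ p ≤ M) →
    ∑ z ∈ (S.image (v k)).offDiag, gg (2 * Nat.dist z.1 z.2) ≤ C * (M / Real.log M) ^ 2 := by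
  classical
  obtain ⟨C1, hC1, h1⟩ := avg_diff
  have hg := one_le_gg (2 * (2 * k))
  refine ⟨gg (2 * (2 * k)) * C1, by nlinarith, fun M S hM hS => ?_⟩
  have hsub : (S.image (v k)).offDiag ⊆ S.offDiag.image (fun z : ℕ × ℕ => (v k z.1, v k z.2)) := by
    intro z hz
    rw [mem_offDiag, mem_image, mem_image] at hz
    obtain ⟨⟨p, hp, hpe⟩, ⟨q, hq, hqe⟩, hne⟩ := hz
    rw [mem_image]
    refine ⟨(p, q), ?_, ?_⟩
    · rw [mem_offDiag]
      refine ⟨hp, hq, ?_⟩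
      rintro h
      apply hne
      have h' : p = q := h
      rw [← hpe, ← hqe, h']
    · exact Prod.ext hpe hqe
  have h3 : ∑ z ∈ (S.image (v k)).offDiag, gg (2 * Nat.dist z.1 z.2) ≤
      ∑ z ∈ S.offDiag.image (fun z : ℕ × ℕ => (v k z.1, v k z.2)), gg (2 * Nat.dist z.1 z.2) :=
    Finset.sum_le_sum_of_subset_of_nonneg hsub (fun z _ _ => by
      linarith [one_le_gg (2 * Nat.dist z.1 z.2)])
  refine h3.trans ?_
  rw [Finset.sum_image (fun z hz z' hz' h => by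
    have h4 := congrArg Prod.fst h
    have h5 := congrArg Prod.snd h
    exact Prod.ext (v_inj hk h4) (v_inj hk h5))]
  have h4 : ∀ z ∈ S.offDiag, gg (2 * Nat.dist (v k z.1) (v k z.2)) ≤
      gg (2 * (2 * k)) * gg (Nat.dist z.1 z.2) ^ 2 := by
    intro z hz
    rw [mem_offDiag] at hz
    have hd : 0 < Nat.dist z.1 z.2 := Nat.dist_pos_of_ne hz.2.2
    rw [v_dist, ← mul_assoc]
    have h5 := gg_mul_le (2 * (2 * k)) (Nat.dist z.1 z.2) (by omega) (by omega)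
    have h7 := one_le_gg (Nat.dist z.1 z.2)
    refine h5.trans ?_
    apply mul_le_mul_of_nonneg_left _ (by linarith)
    nlinarith
  refine (Finset.sum_le_sum h4).trans ?_
  rw [← Finset.mul_sum, mul_assoc]
  exact mul_le_mul_of_nonneg_left (h1 M S hM hS) (by linarith)

theorem small_l (k : ℕ) (hk : 1 ≤ k) (β δ : ℝ) (hβ : 0 < β) (hδ : 0 < δ) :
    ∃ c₁ : ℝ, 0 < c₁ ∧ ∀ A : Set ℕ, (∀ p ∈ A, p.Prime) →
    (∃ y0 : ℕ, ∀ y : ℕ, y0 ≤ y → ∃ S : Finset ℕ, S ⊆ Icc 1 y ∧ (∀ m ∈ S, m ∈ A) ∧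
      β * (y / Real.log y) ≤ #S) →
    ∃ x0 : ℕ, ∀ x : ℕ, x0 ≤ x → ∃ T : Finset ℕ, T ⊆ Icc 3 x ∧ c₁ * x ≤ #T ∧
      ∀ n ∈ T, ∃ p ∈ A, ∃ q : ℕ, q.Prime ∧ (p : ℝ) ≤ δ * (Real.log x * Real.log (Real.log x)) ∧
        2 * k * p + 1 + q = 2 * n := by
  classical
  obtain ⟨C1, hC1, havgf⟩ := avg_l k hk
  obtain ⟨C2, hC2, u0, hsm⟩ := second_moment
  obtain ⟨c1, hc1⟩ : ∃ c1 : ℝ, c1 = β * δ / 16 := ⟨_, rfl⟩
  have hc10 : 0 < c1 := by rw [hc1]; positivity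
  obtain ⟨D, hD⟩ : ∃ D : ℝ, D = C2 * C1 * (2 * δ) ^ 2 := ⟨_, rfl⟩
  have hD0 : 0 < D := by rw [hD]; positivity
  obtain ⟨P0, hP0⟩ : ∃ P0 : ℕ, P0 = k + 1 := ⟨_, rfl⟩
  refine ⟨c1 / (1 + D / c1), by positivity, fun A hA hd => ?_⟩
  obtain ⟨y0, hd⟩ := hd
  have hlogt : Tendsto (fun x : ℕ => Real.log (x : ℝ)) atTop atTop :=
    Real.tendsto_log_atTop.comp tendsto_natCast_atTop_atTop
  obtain ⟨K0, hK0⟩ : ∃ K0 : ℝ, K0 = (y0 : ℝ) + P0 + 3 + 8 * (P0 + 1) / (β * δ) := ⟨_, rfl⟩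
  obtain ⟨x0, hx0⟩ := eventually_atTop.mp ((hlogt.eventually (ev_L δ K0 hδ)).and
    ((hlogt.eventually (ev_x P0)).and
      (QQ_card.and ((eventually_ge_atTop u0).and (eventually_ge_atTop 10)))))
  refine ⟨x0, fun x hx => ?_⟩
  obtain ⟨⟨hLK, hL16, hL2, hLsq, hLs, hK⟩, hx16, hQ, hxu, hx10⟩ := hx0 x hx
  have hxpos : (0 : ℝ) < x := by exact_mod_cast (by omega : 0 < x)
  have hexpL : Real.exp (Real.log (x : ℝ) / 16) = (x : ℝ) ^ (1 / 16 : ℝ) := by
    rw [Real.rpow_def_of_pos hxpos]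
    congr 1
    ring
  rw [hexpL] at hx16
  obtain ⟨L, hL⟩ : ∃ L : ℝ, L = Real.log (x : ℝ) := ⟨_, rfl⟩
  rw [← hL] at hLK hL16 hL2 hLsq hLs hK hx16 hQ ⊢
  have hl1 : 1 ≤ Real.log L := by
    rw [Real.le_log_iff_exp_le (by linarith)]
    have := Real.exp_one_lt_d9
    linarith
  obtain ⟨W, hW⟩ : ∃ W : ℝ, W = δ * (L * Real.log L) := ⟨_, rfl⟩
  rw [← hW] at hL2 hLsq hLs hK ⊢
  obtain ⟨M, hM⟩ : ∃ M : ℕ, M = ⌊W⌋₊ := ⟨_, rfl⟩
  have hMle : (M : ℝ) ≤ W := by rw [hM]; exact Nat.floor_le (by linarith)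
  have hMge : W - 1 ≤ M := by
    have := Nat.lt_floor_add_one W
    rw [← hM] at this
    linarith
  have hMhalf : W / 2 ≤ M := by linarith
  have hy00 : (0 : ℝ) ≤ y0 := Nat.cast_nonneg _
  have hP00 : (0 : ℝ) ≤ P0 := Nat.cast_nonneg _
  have hfr : 0 ≤ 8 * ((P0 : ℝ) + 1) / (β * δ) := by positivity
  have hMK : (y0 : ℝ) + P0 + 3 ≤ M := by linarith
  have hMy0 : y0 + P0 + 3 ≤ M := by exact_mod_cast hMK
  have hM2 : 2 ≤ M := by omega
  have hMr : (2 : ℝ) ≤ M := by exact_mod_cast hM2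
  -- `log M`
  have hlM1 : Real.log M ≤ 2 * Real.log L := by
    have h1 : (M : ℝ) ≤ L ^ 2 := hMle.trans hLsq
    have h2 := Real.log_le_log (by linarith) h1
    rw [Real.log_pow] at h2
    exact_mod_cast h2
  have hlM2 : Real.log L / 2 ≤ Real.log M := by
    rw [← Real.log_sqrt (by linarith)]
    exact Real.log_le_log (Real.sqrt_pos.2 (by linarith)) (hLs.trans hMhalf)
  have hlMpos : 0 < Real.log M := by linarith
  have hML1 : δ * L / 4 ≤ M / Real.log M := by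
    rw [le_div_iff₀ hlMpos]
    calc δ * L / 4 * Real.log M ≤ δ * L / 4 * (2 * Real.log L) := by gcongr
      _ = W / 2 := by rw [hW]; ring
      _ ≤ M := hMhalf
  have hML2 : M / Real.log M ≤ 2 * δ * L := by
    rw [div_le_iff₀ hlMpos]
    calc (M : ℝ) ≤ W := hMle
      _ = 2 * δ * L * (Real.log L / 2) := by rw [hW]; ring
      _ ≤ 2 * δ * L * Real.log M := by gcongr
  obtain ⟨S0, hS0, hS0A, hS0c⟩ := hd M (by omega)
  obtain ⟨S, hS⟩ : ∃ S : Finset ℕ, S = S0.filter (fun p => P0 ≤ p) := ⟨_, rfl⟩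
  have hSc : (#S0 : ℝ) - P0 ≤ #S := by
    have h1 : #S0 ≤ #S + P0 := by
      have h2 := card_filter_add_card_filter_not (s := S0) (fun p => P0 ≤ p)
      have h3 : #(S0.filter (fun p => ¬ P0 ≤ p)) ≤ P0 := by
        have h4 : S0.filter (fun p => ¬ P0 ≤ p) ⊆ range P0 := by
          intro p hp
          rw [mem_filter] at hp
          rw [mem_range]
          omega
        have := card_le_card h4
        rwa [card_range] at this
      rw [hS]
      omega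
    have h2 : (#S0 : ℝ) ≤ #S + P0 := by exact_mod_cast h1
    linarith
  have hSP : ∀ p ∈ S, p.Prime ∧ p ≤ M ∧ k + 1 ≤ p := by
    intro p hp
    rw [hS, mem_filter] at hp
    exact ⟨hA p (hS0A p hp.1), (mem_Icc.1 (hS0 hp.1)).2, by rw [← hP0]; exact hp.2⟩
  have hSA : ∀ p ∈ S, p ∈ A := by
    intro p hp
    rw [hS, mem_filter] at hp
    exact hS0A p hp.1
  have hSlow : β * δ * L / 8 ≤ #S := by
    have h1 : β * (δ * L / 4) ≤ #S0 := le_trans (mul_le_mul_of_nonneg_left hML1 hβ.le) hS0c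
    have h2 : 8 * ((P0 : ℝ) + 1) ≤ β * δ * L := by
      have h3 : 8 * ((P0 : ℝ) + 1) / (β * δ) ≤ L := by linarith
      rw [div_le_iff₀ (by positivity)] at h3
      linarith
    linarith
  obtain ⟨Q, hQd⟩ : ∃ Q : Finset ℕ, Q = S.image (v k) := ⟨_, rfl⟩
  have hinj : ∀ p ∈ S, ∀ q ∈ S, v k p = v k q → p = q := fun p _ q _ h => v_inj hk h
  have hQcard : #Q = #S := by
    rw [hQd]
    exact card_image_of_injOn (fun p hp q hq h => hinj p hp q hq h)
  obtain ⟨Y, hY⟩ : ∃ Y : ℕ, Y = (M + P0) ^ 2 := ⟨_, rfl⟩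
  have hQsub : Q ⊆ Icc 1 Y := by
    intro a ha
    rw [hQd, mem_image] at ha
    obtain ⟨p, hp, rfl⟩ := ha
    rw [mem_Icc]
    unfold v
    refine ⟨by omega, ?_⟩
    have h4 := (hSP p hp).2.1
    rw [hY, hP0]
    have h5 : k * p ≤ k * M := Nat.mul_le_mul_left k h4
    nlinarith
  have hQodd : ∀ a ∈ Q, 3 ≤ a ∧ a % 2 = 1 := by
    intro a ha
    rw [hQd, mem_image] at ha
    obtain ⟨p, hp, rfl⟩ := ha
    have h3 := (hSP p hp).1.pos
    have h4 : 1 ≤ k * p := Nat.mul_pos (by omega) h3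
    have h5 : v k p = 2 * (k * p) + 1 := by unfold v; ring
    rw [h5]
    omega
  have hYx : 2 * (Y : ℝ) ≤ (x : ℝ) ^ (1 / 16 : ℝ) := by
    rw [hY]
    push_cast
    refine le_trans ?_ hx16
    have h1 : (M : ℝ) + P0 ≤ L ^ 2 + P0 := by linarith
    have := pow_le_pow_left₀ (by positivity) h1 2
    linarith
  have hmain := hsm x Y Q hxu hYx hQsub hQodd
  have havg := havgf M S hM2 (fun p hp => ⟨(hSP p hp).1, (hSP p hp).2.1⟩)
  rw [← hQd] at havg
  rw [← hL, hQcard] at hmain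
  obtain ⟨t, ht⟩ : ∃ t : ℝ, t = (#S : ℝ) * #(QQ x) := ⟨_, rfl⟩
  rw [← ht] at hmain
  have hLp : 0 < L := by linarith
  have ht1 : c1 * x ≤ t := by
    rw [ht, hc1]
    calc β * δ / 16 * x = (β * δ * L / 8) * (x / (2 * L)) := by
          field_simp
          norm_num
      _ ≤ (#S : ℝ) * #(QQ x) := mul_le_mul hSlow hQ (by positivity) (Nat.cast_nonneg _)
  have htpos : 0 < t := lt_of_lt_of_le (by positivity) ht1
  have hZ : C2 * (∑ z ∈ Q.offDiag, gg (2 * Nat.dist z.1 z.2)) * x / L ^ 2 ≤ D * x := by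
    have h1 : C2 * (∑ z ∈ Q.offDiag, gg (2 * Nat.dist z.1 z.2)) * x / L ^ 2 ≤
        C2 * (C1 * (2 * δ * L) ^ 2) * x / L ^ 2 := by
      have h2 : (M / Real.log M) ^ 2 ≤ (2 * δ * L) ^ 2 := pow_le_pow_left₀ (by positivity) hML2 2
      have h3 : ∑ z ∈ Q.offDiag, gg (2 * Nat.dist z.1 z.2) ≤ C1 * (2 * δ * L) ^ 2 :=
        havg.trans (mul_le_mul_of_nonneg_left h2 (by linarith))
      gcongr
    refine h1.trans (le_of_eq ?_)
    rw [hD]
    field_simp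
  refine ⟨RR Q x, ?_, ?_, ?_⟩
  · unfold RR
    exact Finset.filter_subset _ _
  · have h1 : t ^ 2 ≤ #(RR Q x) * (t * (1 + D / c1)) := by
      refine hmain.trans ?_
      apply mul_le_mul_of_nonneg_left _ (Nat.cast_nonneg _)
      have h2 : D * x ≤ t * (D / c1) := by
        calc D * x = (c1 * x) * (D / c1) := by field_simp
          _ ≤ t * (D / c1) := mul_le_mul_of_nonneg_right ht1 (by positivity)
      calc t + C2 * (∑ z ∈ Q.offDiag, gg (2 * Nat.dist z.1 z.2)) * x / L ^ 2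
          ≤ t + t * (D / c1) := by linarith
        _ = t * (1 + D / c1) := by ring
    have h2 : t ≤ #(RR Q x) * (1 + D / c1) := by
      have h3 : t * t ≤ t * (#(RR Q x) * (1 + D / c1)) := by
        calc t * t = t ^ 2 := by ring
          _ ≤ #(RR Q x) * (t * (1 + D / c1)) := h1
          _ = t * (#(RR Q x) * (1 + D / c1)) := by ring
      exact le_of_mul_le_mul_left h3 htpos
    have h4 : 0 < 1 + D / c1 := by positivity
    rw [div_mul_eq_mul_div, div_le_iff₀ h4]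
    linarith
  · intro n hn
    unfold RR at hn
    obtain ⟨a, ha, q, hq, hqa⟩ := (mem_filter.mp hn).2
    rw [hQd, mem_image] at ha
    obtain ⟨p, hp, rfl⟩ := ha
    refine ⟨p, hSA p hp, q, hq, ?_, ?_⟩
    · have h3 : (p : ℝ) ≤ M := by exact_mod_cast (hSP p hp).2.1
      linarith
    · exact hqa

theorem lower (k : ℕ) (ε : ℝ) (hε : 0 < ε) : ∃ c₀ : ℝ, 0 < c₀ ∧ ∃ X₀ : ℕ, ∀ X : ℕ, X₀ ≤ X →
    ∀ Y : ℕ, (Set.ncard {n : ℕ | Y < n ∧ n ≤ Y + X ∧ ∃ p q : ℕ, p.Prime ∧ q.Prime ∧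
      2 * k * p + q = n ∧ (p : ℝ) ≤ c₀ * (Real.log X * Real.log (Real.log X))} : ℝ) ≤
      ε * X := by
  classical
  obtain ⟨C, hC, hbt⟩ := Pool.Agent.Helper601.brun_titchmarsh
  obtain ⟨R, hRd⟩ : ∃ R : ℝ, R = ε / (2 * C) := ⟨_, rfl⟩
  have hR : 0 < R := by rw [hRd]; positivity
  obtain ⟨c₁, hc₁, X₁, hbig⟩ := Pool.Agent.TH685.Gen.prime_big R hR
  have hlogt : Tendsto (fun x : ℕ => Real.log (x : ℝ)) atTop atTop :=
    Real.tendsto_log_atTop.comp tendsto_natCast_atTop_atTop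
  obtain ⟨X₂, hX₂⟩ := eventually_atTop.1 ((hlogt.eventually_ge_atTop (1 / R)).and
    (eventually_ge_atTop 2))
  refine ⟨c₁, hc₁, max X₁ X₂, fun X hX Y => ?_⟩
  have hb := hbig X ((le_max_left _ _).trans hX)
  obtain ⟨h1, h2⟩ := hX₂ X ((le_max_right _ _).trans hX)
  have hXr : (2 : ℝ) ≤ X := by exact_mod_cast h2
  obtain ⟨L, hL⟩ : ∃ L : ℝ, L = Real.log X := ⟨_, rfl⟩
  rw [← hL] at h1 hb ⊢
  have hLpos : 0 < L := by rw [hL]; exact Real.log_pos (by linarith)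
  rw [div_le_iff₀ hR] at h1
  obtain ⟨N, hN⟩ : ∃ N : ℕ, N = ⌊c₁ * (L * Real.log L)⌋₊ + 1 := ⟨_, rfl⟩
  obtain ⟨S, hSc, hS⟩ := Pool.Agent.TH685.Gen.first_card (fun j => j.Prime) (R * L) (by positivity) N
  obtain ⟨E, hE⟩ : ∃ E : ℤ → Finset ℕ, ∀ v : ℤ, E v =
      (Ioc Y (Y + X)).filter (fun n : ℕ => ∃ q : ℕ, q.Prime ∧ v + q = n) := ⟨_, fun _ => rfl⟩
  have hEc : ∀ v : ℤ, ((E v).card : ℝ) ≤ C * X / L := by
    intro v
    obtain ⟨a, ha⟩ : ∃ a : ℕ, a = ((Y : ℤ) + 1 - v).toNat := ⟨_, rfl⟩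
    have h3 : (E v).card ≤ ((range X).filter (fun j : ℕ => Nat.Prime (a + j * 1))).card := by
      apply card_le_card_of_injOn (fun n : ℕ => ((n : ℤ) - v - a).toNat)
      · intro n hn
        rw [mem_coe, hE, mem_filter, mem_Ioc] at hn
        obtain ⟨⟨hn1, hn2⟩, q, hq, hqn⟩ := hn
        have hq1 := hq.pos
        rw [mem_coe, mem_filter, mem_range]
        have e : a + ((n : ℤ) - v - a).toNat * 1 = q := by omega
        refine ⟨?_, ?_⟩
        · show ((n : ℤ) - v - a).toNat < X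
          omega
        · show Nat.Prime (a + ((n : ℤ) - v - a).toNat * 1)
          rw [e]
          exact hq
      · intro n hn n' hn' h
        rw [mem_coe, hE, mem_filter, mem_Ioc] at hn hn'
        obtain ⟨⟨hn1, hn2⟩, q, hq, hqn⟩ := hn
        obtain ⟨⟨hn1', hn2'⟩, q', hq', hqn'⟩ := hn'
        have h' : ((n : ℤ) - v - a).toNat = ((n' : ℤ) - v - a).toNat := h
        omega
    have h4 := hbt a 1 X h2 (Or.inl rfl)
    rw [← hL] at h4
    exact le_trans (by exact_mod_cast h3) h4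
  obtain ⟨B, hB⟩ : ∃ B : Finset ℕ, B = S.biUnion (fun p => E (2 * k * p)) := ⟨_, rfl⟩
  have hBc : (B.card : ℝ) ≤ ε * X := by
    have h3 : (B.card : ℝ) ≤ ∑ p ∈ S, ((E (2 * k * p)).card : ℝ) := by
      rw [hB]
      exact_mod_cast card_biUnion_le
    have h4 : ∑ p ∈ S, ((E (2 * k * p)).card : ℝ) ≤ ∑ _p ∈ S, C * X / L :=
      sum_le_sum fun p _ => hEc _
    rw [sum_const, nsmul_eq_mul] at h4
    have h5 : (S.card : ℝ) ≤ 2 * (R * L) := by linarith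
    calc (B.card : ℝ) ≤ (S.card : ℝ) * (C * X / L) := h3.trans h4
      _ ≤ 2 * (R * L) * (C * X / L) := by gcongr
      _ = (2 * C * R) * X := by field_simp
      _ = ε * X := by rw [hRd]; field_simp
  have hsub : {n : ℕ | Y < n ∧ n ≤ Y + X ∧ ∃ p q : ℕ, p.Prime ∧ q.Prime ∧
      2 * k * p + q = n ∧ (p : ℝ) ≤ c₁ * (L * Real.log L)} ⊆ (B : Set ℕ) := by
    rintro n ⟨hn1, hn2, p, q, hp, hq, hpq, hpL⟩
    rw [mem_coe, hB, mem_biUnion]
    refine ⟨p, ?_, ?_⟩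
    · by_contra hpS
      have h3 : p < N := by
        rw [hN]
        have := Nat.le_floor hpL
        omega
      have h4 := hb p (hS p h3 hp.one_lt.le hp hpS)
      linarith
    · rw [hE, mem_filter, mem_Ioc]
      exact ⟨⟨hn1, hn2⟩, q, hq, by exact_mod_cast hpq⟩
  have h5 := Set.ncard_le_ncard hsub (Finset.finite_toSet B)
  rw [Set.ncard_coe_finset] at h5
  have h6 : (Set.ncard {n : ℕ | Y < n ∧ n ≤ Y + X ∧ ∃ p q : ℕ, p.Prime ∧ q.Prime ∧
      2 * k * p + q = n ∧ (p : ℝ) ≤ c₁ * (L * Real.log L)} : ℝ) ≤ B.card := by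
    exact_mod_cast h5
  exact h6.trans hBc

theorem upper (k : ℕ) (hk : 1 ≤ k) (β δ : ℝ) (hβ : 0 < β) (hδ : 0 < δ) :
    ∃ c₁ : ℝ, 0 < c₁ ∧ ∀ A : Set ℕ, (∀ p ∈ A, p.Prime) →
    (∀ᶠ y : ℕ in atTop, β * (y / Real.log y) ≤ Set.ncard {p : ℕ | p ∈ A ∧ p ≤ y}) →
    ∀ᶠ x : ℕ in atTop, c₁ * x ≤ Set.ncard {n : ℕ | n ≤ x ∧ Odd n ∧ ∃ p q : ℕ, p ∈ A ∧ q.Prime ∧
      2 * k * p + q = n ∧ (p : ℝ) ≤ δ * (Real.log n * Real.log (Real.log n))} := by
  classical
  obtain ⟨c₁, hc₁, hs⟩ := small_l k hk β (δ / 4) hβ (by positivity)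
  refine ⟨c₁ / 8, by positivity, fun A hA hd => ?_⟩
  obtain ⟨y0, hd⟩ := eventually_atTop.1 hd
  obtain ⟨x0, hs⟩ := hs A hA ⟨y0, fun y hy => by
    refine ⟨(Icc 1 y).filter (fun m => m ∈ A), filter_subset _ _,
      fun m hm => (mem_filter.1 hm).2, ?_⟩
    refine (hd y hy).trans ?_
    have h1 : {m : ℕ | m ∈ A ∧ m ≤ y} ⊆ (((Icc 1 y).filter (fun m => m ∈ A) : Finset ℕ) : Set ℕ) := by
      rintro m ⟨hm1, hm2⟩
      have := (hA m hm1).pos
      rw [mem_coe, mem_filter, mem_Icc]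
      exact ⟨⟨by omega, hm2⟩, hm1⟩
    have h2 := Set.ncard_le_ncard h1 (Finset.finite_toSet _)
    rw [Set.ncard_coe_finset] at h2
    exact_mod_cast h2⟩
  obtain ⟨w0, hw0⟩ := exists_nat_ge (16 / c₁ ^ 2)
  obtain ⟨w1, hw1⟩ := exists_nat_ge (Real.exp 4)
  filter_upwards [eventually_ge_atTop (2 * x0 + 2 * w0 + 2 * w1 + 40)] with X hX
  obtain ⟨x, hx⟩ : ∃ x : ℕ, x = X / 2 := ⟨_, rfl⟩
  obtain ⟨T, hT1, hT2, hT3⟩ := hs x (by omega)
  have hx20 : 20 ≤ x := by omega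
  have hxw : w0 ≤ x := by omega
  have hxw1 : w1 ≤ x := by omega
  have hxr : (20 : ℝ) ≤ x := by exact_mod_cast hx20
  have hwr : (w0 : ℝ) ≤ x := by exact_mod_cast hxw
  have hw1r : (w1 : ℝ) ≤ x := by exact_mod_cast hxw1
  have hL4 : 4 ≤ Real.log x := by
    rw [Real.le_log_iff_exp_le (by linarith)]
    linarith
  have hXx : (X : ℝ) ≤ 2 * x + 1 := by
    have : X ≤ 2 * x + 1 := by omega
    exact_mod_cast this
  have hbig : c₁ / 2 * x ≤ ((T.filter (fun n => x < n ^ 2)).card : ℝ) := by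
    have h1 : T.card ≤ (T.filter (fun n => x < n ^ 2)).card + Nat.sqrt x := by
      have h2 := card_filter_add_card_filter_not (s := T) (fun n => x < n ^ 2)
      have h3 : (T.filter (fun n => ¬ x < n ^ 2)).card ≤ (Icc 1 (Nat.sqrt x)).card := by
        apply card_le_card
        intro n hn
        rw [mem_filter] at hn
        have h4 := mem_Icc.1 (hT1 hn.1)
        rw [mem_Icc]
        refine ⟨by omega, ?_⟩
        rw [Nat.le_sqrt']
        exact not_lt.1 hn.2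
      rw [Nat.card_Icc, Nat.add_sub_cancel] at h3
      omega
    have h2 : (T.card : ℝ) ≤ ((T.filter (fun n => x < n ^ 2)).card : ℝ) + (Nat.sqrt x : ℝ) := by
      exact_mod_cast h1
    have h3 : (Nat.sqrt x : ℝ) ≤ √(x : ℝ) := Real.nat_sqrt_le_real_sqrt
    have h4 : √(x : ℝ) ≤ c₁ / 2 * x := by
      rw [Real.sqrt_le_left (by positivity)]
      have h5 : 16 / c₁ ^ 2 ≤ x := hw0.trans hwr
      rw [div_le_iff₀ (by positivity)] at h5
      have h6 : (x : ℝ) * 16 ≤ x * (x * c₁ ^ 2) := mul_le_mul_of_nonneg_left h5 (by positivity)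
      nlinarith
    linarith
  obtain ⟨G, hG⟩ : ∃ G : Set ℕ, G = {n : ℕ | n ≤ X ∧ Odd n ∧ ∃ p q : ℕ, p ∈ A ∧ q.Prime ∧
      2 * k * p + q = n ∧ (p : ℝ) ≤ δ * (Real.log n * Real.log (Real.log n))} := ⟨_, rfl⟩
  rw [← hG]
  have hGfin : G.Finite := by
    rw [hG]
    exact (Set.finite_Iic X).subset (fun n hn => hn.1)
  have hsub : (((T.filter (fun n => x < n ^ 2)).image (fun n => 2 * n - 1) : Finset ℕ) : Set ℕ) ⊆ G := by
    intro N hN
    rw [mem_coe, mem_image] at hN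
    obtain ⟨n, hn, rfl⟩ := hN
    rw [mem_filter] at hn
    have h1 := mem_Icc.1 (hT1 hn.1)
    obtain ⟨p, hpA, q, hq, hpL, hpq⟩ := hT3 n hn.1
    rw [hG]
    refine ⟨by omega, ⟨n - 1, by omega⟩, p, q, hpA, hq, by omega, ?_⟩
    have h2 : (x : ℝ) < (n : ℝ) ^ 2 := by exact_mod_cast hn.2
    have hn3 : (3 : ℝ) ≤ n := by exact_mod_cast h1.1
    have h3 : Real.log x ≤ 2 * Real.log n := by
      have := Real.log_le_log (by linarith) h2.le
      rw [Real.log_pow] at this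
      exact_mod_cast this
    have h4 : Real.log n ≤ Real.log ((2 * n - 1 : ℕ) : ℝ) := by
      apply Real.log_le_log (by linarith)
      have : n ≤ 2 * n - 1 := by omega
      exact_mod_cast this
    have h5 : Real.log x / 2 ≤ Real.log ((2 * n - 1 : ℕ) : ℝ) := by linarith
    have h6 : Real.log (Real.log x) / 2 ≤ Real.log (Real.log ((2 * n - 1 : ℕ) : ℝ)) := by
      rw [← Real.log_sqrt (by linarith)]
      apply Real.log_le_log (Real.sqrt_pos.2 (by linarith))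
      refine le_trans ?_ h5
      have h7 : 2 ≤ √(Real.log x) := by
        rw [Real.le_sqrt (by norm_num) (by linarith)]
        linarith
      have h8 : √(Real.log x) * √(Real.log x) = Real.log x := Real.mul_self_sqrt (by linarith)
      nlinarith
    have h7 : 0 ≤ Real.log (Real.log x) := Real.log_nonneg (by linarith)
    calc (p : ℝ) ≤ δ / 4 * (Real.log x * Real.log (Real.log x)) := hpL
      _ = δ * (Real.log x / 2 * (Real.log (Real.log x) / 2)) := by ring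
      _ ≤ δ * (Real.log ((2 * n - 1 : ℕ) : ℝ) * Real.log (Real.log ((2 * n - 1 : ℕ) : ℝ))) := by
          apply mul_le_mul_of_nonneg_left _ hδ.le
          exact mul_le_mul h5 h6 (by linarith) (by linarith)
  have h5 := Set.ncard_le_ncard hsub hGfin
  rw [Set.ncard_coe_finset, card_image_of_injOn (fun a ha a' ha' h => by
    rw [mem_coe, mem_filter] at ha ha'
    have h1 := mem_Icc.1 (hT1 ha.1)
    have h2 := mem_Icc.1 (hT1 ha'.1)
    have h' : 2 * a - 1 = 2 * a' - 1 := h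
    omega)] at h5
  have h6 : ((T.filter (fun n => x < n ^ 2)).card : ℝ) ≤ Set.ncard G := by exact_mod_cast h5
  refine le_trans ?_ (hbig.trans h6)
  nlinarith

/-- **Theorem.** Let `k ≥ 1` (`k = 1` is the case of the problem).

(1) For every `ε > 0` there is `c₀ > 0` such that for all large `X` and all `Y` at most `ε X` of the integers
`m` with `Y < m ≤ Y + X` are of the form `m = 2 k p + q` with primes `p`, `q` and `p ≤ c₀ log X log log X`.

(2) For all `β, δ > 0` there is `c₁ > 0` such that for every set `A` of primes of relative lower density at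
least `β` (in the form: at least `β y / log y` elements up to `y` for all large `y`), for all large `x` at
least `c₁ x` of the odd `m ≤ x` are of the form `m = 2 k p + q` with `p` in `A`, `q` prime and
`p ≤ δ log m log log m`. -/
theorem result (k : ℕ) (hk : 1 ≤ k) :
    (∀ ε : ℝ, 0 < ε → ∃ c₀ : ℝ, 0 < c₀ ∧ ∃ X₀ : ℕ, ∀ X : ℕ, X₀ ≤ X → ∀ Y : ℕ,
      (Set.ncard {m : ℕ | Y < m ∧ m ≤ Y + X ∧ ∃ p q : ℕ, p.Prime ∧ q.Prime ∧
        2 * k * p + q = m ∧ (p : ℝ) ≤ c₀ * (Real.log X * Real.log (Real.log X))} : ℝ) ≤ ε * X) ∧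
    (∀ β δ : ℝ, 0 < β → 0 < δ → ∃ c₁ : ℝ, 0 < c₁ ∧ ∀ A : Set ℕ, (∀ p ∈ A, p.Prime) →
      (∀ᶠ y : ℕ in atTop, β * (y / Real.log y) ≤ Set.ncard {p : ℕ | p ∈ A ∧ p ≤ y}) →
      ∀ᶠ x : ℕ in atTop, c₁ * x ≤ Set.ncard {m : ℕ | m ≤ x ∧ Odd m ∧ ∃ p q : ℕ, p ∈ A ∧ q.Prime ∧
        2 * k * p + q = m ∧ (p : ℝ) ≤ δ * (Real.log m * Real.log (Real.log m))}) :=
  ⟨fun ε hε => lower k ε hε, fun β δ hβ hδ => upper k hk β δ hβ hδ⟩

end Pool.Agent.Results.MP_5be99d_nt.TypicalLeastPrime
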